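import Pool.Agent.H70.WB.Fin7
import Pool.Agent.H70.WP.Ch2

/-!
# MP_e8f906_co: decreasing chains whose first equations imply an equation in which an unknown occurs at most once
on each side

The unknowns are `0, 1, 2 : Fin 3`, written `x, y, z`. If the first `r` equations of a decreasing chain imply an equation
`F` with different sides in which some unknown `c` occurs at most once on each side, the chain has length at most
`r + 12`, and at most `r + 6` unless `F` is one of the equations `ExcF c`, that is, up to the order of the sides,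
`G W u^k c u^(l+e) H = G u^(e+k) c u^l W H`; it also has length at most `r + 6` if a second unknown occurs at most once on
each side of `F`. For every word `A` in `x, y` which contains both letters there is a chain of length `7` which starts with
`A z = z A`.
-/

set_option autoImplicit false

namespace Pool.Agent.Results.MP_e8f906_co.OnceEachSide

open Pool.Agent.H70.WE

theorem result :
    (∀ (α : Type) (n r : ℕ) (E : Fin n → List (Fin 3) × List (Fin 3)) (c : Fin 3) (F : List (Fin 3) × List (Fin 3)),
      Decreasing α n E → F.1 ≠ F.2 → F.1.count c ≤ 1 → F.2.count c ≤ 1 →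
      (∀ h : Fin 3 → List α, (∀ i : Fin n, i.val < r → Solves h (E i)) → Solves h F) →
      n ≤ r + 12 ∧ (¬ ExcF c F → n ≤ r + 6) ∧
        ∀ d : Fin 3, d ≠ c → F.1.count d ≤ 1 → F.2.count d ≤ 1 → n ≤ r + 6) ∧
    (∀ A : List (Fin 3), (2 : Fin 3) ∉ A → (0 : Fin 3) ∈ A → (1 : Fin 3) ∈ A →
      ∃ E : Fin 7 → List (Fin 3) × List (Fin 3), E 0 = (A ++ [2], [2] ++ A) ∧ Decreasing ℕ 7 E) :=
  ⟨fun _ _ _ _ c F hE hne h1 h2 hr =>
      ⟨any_bound c hE hne h1 h2 hr, fun hx => any_six c hE hne h1 h2 hx hr,
        fun d hd h3 h4 => npb_bound (npb_class F c d hd.symm hne h1 h3 h2 h4) hE hr⟩,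
    fun A h2 h0 h1 => chain_word A h2 h0 h1⟩

end Pool.Agent.Results.MP_e8f906_co.OnceEachSide
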