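import Pool.Agent.H70.WB.Fams

/-!
# MP_e8f906_co: decreasing chains of word equations in three unknowns which reach one-parameter families

The unknowns are `0, 1, 2 : Fin 3`, written `x, y, z`. A one-parameter family `InFam P W` is given by a word `P` in
two letters and words `W x, W y, W z` in these letters and a third letter `T`: its members are the morphisms `h` such
that for some words `p, q` which do not commute and some `i`, `h c` is the value of `W c` at `p, q` and `T = P(p, q)^i`.
If every non periodic solution of the first `r` equations of a decreasing chain lies in one of `k` one-parameter
families, then the chain has length at most `r + 3 k + 3`.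
-/

set_option autoImplicit false

namespace Pool.Agent.Results.MP_e8f906_co.OneParameter

open Pool.Agent.H70.WE

theorem result (α : Type) (n r k : ℕ) (E : Fin n → List (Fin 3) × List (Fin 3)) (P : Fin k → List Bool)
    (W : Fin k → Fin 3 → List (Option Bool)) (hE : Decreasing α n E)
    (hr : ∀ h : Fin 3 → List α, (∀ i : Fin n, i.val < r → Solves h (E i)) → ¬ Per h →
      ∃ (j : Fin k) (i : ℕ), InFam (P j) (W j) h i) : n ≤ r + 3 * k + 3 :=
  fams_bound P W hE hr

end Pool.Agent.Results.MP_e8f906_co.OneParameter
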